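import Pool.Agent.H48.FXD.Defs

open Filter Set MeasureTheory
open scoped Topology

namespace Pool.Agent.H2.FXD

open Pool.Agent.H48.FXD

variable {G : Type*} [Group G] [TopologicalSpace G] [CompactSpace G]
  {E : Type*} [NormedAddCommGroup E] [NormedSpace ℝ E] [FiniteDimensional ℝ E]
  {y₀ : E} {V : Set E} {Ψ : G → E → E} {D : G → E → E →L[ℝ] E}

theorem pf_INV (h : LocAct y₀ V Ψ D)
    (hsml : ∀ N ∈ 𝓝 y₀, ∀ᶠ y in 𝓝 y₀, ∀ g, Ψ g y ∈ N)
    {ψ : E → E} (h0 : ψ y₀ = 0) (hd : HasStrictFDerivAt ψ (ContinuousLinearMap.id ℝ E) y₀)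
    (he : ∀ᶠ y in 𝓝 y₀, ∀ g, ψ (Ψ g y) = D g y₀ (ψ y)) {v : E} (hv : ∀ g, D g y₀ v = v) :
    ∃ σ : ℝ → E, σ 0 = y₀ ∧ HasDerivAt σ v 0 ∧ ∀ᶠ s in 𝓝 (0 : ℝ), ∀ g, Ψ g (σ s) = σ s := by
  have : CompleteSpace E := FiniteDimensional.complete ℝ E
  have hd' : HasStrictFDerivAt ψ ((ContinuousLinearEquiv.refl ℝ E : E ≃L[ℝ] E) : E →L[ℝ] E) y₀ := by
    simpa using hd
  set L := hd'.localInverse ψ _ y₀ with hL
  have hLy : L (ψ y₀) = y₀ := hd'.localInverse_apply_image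
  have hLd : HasStrictFDerivAt L
      ((ContinuousLinearEquiv.refl ℝ E).symm : E →L[ℝ] E) (ψ y₀) := hd'.to_localInverse
  have hri : ∀ᶠ z in 𝓝 (ψ y₀), ψ (L z) = z := hd'.eventually_right_inverse
  have hli : ∀ᶠ y in 𝓝 y₀, L (ψ y) = y := hd'.eventually_left_inverse
  rw [h0] at hLy hLd hri
  have hlin : Tendsto (fun s : ℝ => s • v) (𝓝 0) (𝓝 (0 : E)) := by
    have : Continuous (fun s : ℝ => s • v) := by fun_prop
    simpa using this.tendsto 0
  have hsig : Tendsto (fun s : ℝ => L (s • v)) (𝓝 0) (𝓝 y₀) := by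
    have := hLd.hasFDerivAt.continuousAt.tendsto
    rw [hLy] at this
    exact this.comp hlin
  refine ⟨fun s => L (s • v), by simp [hLy], ?_, ?_⟩
  · have h1 : HasDerivAt (fun s : ℝ => s • v) v 0 := by
      simpa using (hasDerivAt_id (0 : ℝ)).smul_const v
    have h2 : HasFDerivAt L ((ContinuousLinearEquiv.refl ℝ E).symm : E →L[ℝ] E) ((0 : ℝ) • v) := by
      simpa using hLd.hasFDerivAt
    have h3 := h2.comp_hasDerivAt (0 : ℝ) h1
    have h4 : ((ContinuousLinearEquiv.refl ℝ E).symm : E →L[ℝ] E) v = v := by simp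
    rw [h4] at h3
    exact h3
  · have e1 := hlin.eventually hri
    have e2 := hsig.eventually hli
    have e3 := hsig.eventually (hsml _ hli)
    have e4 := hsig.eventually he
    filter_upwards [e1, e2, e3, e4] with s s1 s2 s3 s4 g
    have t1 := s4 g
    rw [s1, map_smul, hv g] at t1
    have t2 : L (ψ (Ψ g (L (s • v)))) = Ψ g (L (s • v)) := s3 g
    rw [← t2, t1]

end Pool.Agent.H2.FXD
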