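import Pool.Agent.H48.FXD.Defs

open Filter Set MeasureTheory
open scoped Topology

namespace Pool.Agent.H2.FXD

open Pool.Agent.H48.FXD

variable {G : Type*} [Group G] [TopologicalSpace G] [CompactSpace G]
  {E : Type*} [NormedAddCommGroup E] [NormedSpace ℝ E] [FiniteDimensional ℝ E]
  {y₀ : E} {V : Set E} {Ψ : G → E → E} {D : G → E → E →L[ℝ] E}

theorem pf_LIN [IsTopologicalGroup G] (h : LocAct y₀ V Ψ D)
    (hsml : ∀ N ∈ 𝓝 y₀, ∀ᶠ y in 𝓝 y₀, ∀ g, Ψ g y ∈ N)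
    (hmv : ∀ δ > 0, ∀ᶠ p : E × E in 𝓝 (y₀, y₀),
      ∀ g, ‖Ψ g p.1 - Ψ g p.2 - D g y₀ (p.1 - p.2)‖ ≤ δ * ‖p.1 - p.2‖)
    (hmul : ∀ g k v, D (g * k) y₀ v = D g y₀ (D k y₀ v)) (hone : ∀ v, D 1 y₀ v = v)
    (hC : ∃ C, ∀ g, ‖D g y₀‖ ≤ C) :
    ∃ ψ : E → E, ψ y₀ = 0 ∧ HasStrictFDerivAt ψ (ContinuousLinearMap.id ℝ E) y₀ ∧
      ∀ᶠ y in 𝓝 y₀, ∀ g, ψ (Ψ g y) = D g y₀ (ψ y) := by
  have : CompleteSpace E := FiniteDimensional.complete ℝ E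
  have : ProperSpace E := FiniteDimensional.proper ℝ E
  let _ : MeasurableSpace G := borel G
  have : BorelSpace G := ⟨rfl⟩
  obtain ⟨C, hC⟩ := hC
  let μ : Measure G := Measure.haarMeasure ⊤
  have hμ : IsProbabilityMeasure μ := ⟨by
    have := Measure.haarMeasure_self (G := G) (K₀ := ⊤)
    simpa using this⟩
  have hcD : Continuous fun g : G => D g y₀ := by
    have h1 : ContinuousOn (fun g : G => D g y₀) Set.univ :=
      h.contD.comp (f := fun g : G => (g, y₀)) (by fun_prop) (fun g _ => ⟨trivial, h.mem⟩)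
    exact continuousOn_univ.1 h1
  have hcP : ∀ y ∈ V, Continuous fun g : G => Ψ g⁻¹ y := by
    intro y hy
    have h1 : ContinuousOn (fun g : G => Ψ g⁻¹ y) Set.univ :=
      h.cont.comp (f := fun g : G => (g⁻¹, y)) (by fun_prop) (fun g _ => ⟨trivial, hy⟩)
    exact continuousOn_univ.1 h1
  have hcf : ∀ y ∈ V, Continuous fun g : G => D g y₀ (Ψ g⁻¹ y - y₀) := by
    intro y hy
    exact hcD.clm_apply ((hcP y hy).sub continuous_const)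
  have hint : ∀ F : G → E, Continuous F → Integrable F μ := by
    intro F hF
    exact hF.integrable_of_hasCompactSupport (HasCompactSupport.of_compactSpace F)
  have hinv : ∀ g v, D g y₀ (D g⁻¹ y₀ v) = v := by
    intro g v
    rw [← hmul, mul_inv_cancel, hone]
  refine ⟨fun y => ∫ g, D g y₀ (Ψ g⁻¹ y - y₀) ∂μ, ?_, ?_, ?_⟩
  · simp [h.fix]
  · refine HasStrictFDerivAt.of_isLittleO ?_
    rw [Asymptotics.isLittleO_iff]
    intro ε hε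
    have hCp : 0 < |C| + 1 := by positivity
    have hV : ∀ᶠ p : E × E in 𝓝 (y₀, y₀), p.1 ∈ V ∧ p.2 ∈ V := by
      have := (h.isOpen.prod h.isOpen).mem_nhds (show (y₀, y₀) ∈ V ×ˢ V from ⟨h.mem, h.mem⟩)
      filter_upwards [this] with p hp using hp
    filter_upwards [hV, hmv (ε / (|C| + 1)) (by positivity)] with p hp hq
    have e1 : (∫ g, D g y₀ (Ψ g⁻¹ p.1 - y₀) ∂μ) - (∫ g, D g y₀ (Ψ g⁻¹ p.2 - y₀) ∂μ) -
        (ContinuousLinearMap.id ℝ E) (p.1 - p.2) =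
        ∫ g, D g y₀ (Ψ g⁻¹ p.1 - Ψ g⁻¹ p.2 - D g⁻¹ y₀ (p.1 - p.2)) ∂μ := by
      have c1 : (ContinuousLinearMap.id ℝ E) (p.1 - p.2) = ∫ _g : G, (p.1 - p.2) ∂μ := by
        simp
      have i1 : Integrable (fun g : G => D g y₀ (Ψ g⁻¹ p.1 - y₀) - D g y₀ (Ψ g⁻¹ p.2 - y₀)) μ :=
        (hint _ (hcf _ hp.1)).sub (hint _ (hcf _ hp.2))
      have i2 : Integrable (fun _g : G => p.1 - p.2) μ := integrable_const _
      rw [c1, ← integral_sub (hint _ (hcf _ hp.1)) (hint _ (hcf _ hp.2)), ← integral_sub i1 i2]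
      refine integral_congr_ae (Filter.Eventually.of_forall fun g => ?_)
      have t := hinv g (p.1 - p.2)
      show D g y₀ (Ψ g⁻¹ p.1 - y₀) - D g y₀ (Ψ g⁻¹ p.2 - y₀) - (p.1 - p.2) =
        D g y₀ (Ψ g⁻¹ p.1 - Ψ g⁻¹ p.2 - D g⁻¹ y₀ (p.1 - p.2))
      rw [map_sub (D g y₀) (Ψ g⁻¹ p.1 - Ψ g⁻¹ p.2), t, map_sub, map_sub, map_sub]
      abel
    rw [e1]
    have e2 := norm_integral_le_of_norm_le_const (μ := μ)
      (f := fun g => D g y₀ (Ψ g⁻¹ p.1 - Ψ g⁻¹ p.2 - D g⁻¹ y₀ (p.1 - p.2)))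
      (C := ε * ‖p.1 - p.2‖) (Filter.Eventually.of_forall fun g => by
        have t1 := (D g y₀).le_opNorm (Ψ g⁻¹ p.1 - Ψ g⁻¹ p.2 - D g⁻¹ y₀ (p.1 - p.2))
        have t2 := hq g⁻¹
        have t3 : ‖D g y₀‖ ≤ |C| + 1 := (hC g).trans ((le_abs_self C).trans (by linarith))
        calc _ ≤ ‖D g y₀‖ * ‖Ψ g⁻¹ p.1 - Ψ g⁻¹ p.2 - D g⁻¹ y₀ (p.1 - p.2)‖ := t1
          _ ≤ (|C| + 1) * (ε / (|C| + 1) * ‖p.1 - p.2‖) := by gcongr
          _ = ε * ‖p.1 - p.2‖ := by field_simp)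
    simpa using e2
  · filter_upwards [hsml V (h.isOpen.mem_nhds h.mem), h.isOpen.mem_nhds h.mem] with y hy hyV k
    have e1 : ∀ g : G, Ψ g⁻¹ (Ψ k y) = Ψ (g⁻¹ * k) y := fun g => (h.mul g⁻¹ k y hyV (hy k)).symm
    have e2 : D k y₀ (∫ g, D g y₀ (Ψ g⁻¹ y - y₀) ∂μ) =
        ∫ g, D k y₀ (D g y₀ (Ψ g⁻¹ y - y₀)) ∂μ :=
      (ContinuousLinearMap.integral_comp_comm (D k y₀) (hint _ (hcf y hyV))).symm
    have e3 := integral_mul_left_eq_self (μ := μ)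
      (fun g : G => D g y₀ (Ψ (g⁻¹ * k) y - y₀)) k
    show (∫ g, D g y₀ (Ψ g⁻¹ (Ψ k y) - y₀) ∂μ) = D k y₀ (∫ g, D g y₀ (Ψ g⁻¹ y - y₀) ∂μ)
    rw [e2]
    calc (∫ g, D g y₀ (Ψ g⁻¹ (Ψ k y) - y₀) ∂μ)
        = ∫ g, D g y₀ (Ψ (g⁻¹ * k) y - y₀) ∂μ := by simp only [e1]
      _ = ∫ g, D (k * g) y₀ (Ψ ((k * g)⁻¹ * k) y - y₀) ∂μ := e3.symm
      _ = ∫ g, D k y₀ (D g y₀ (Ψ g⁻¹ y - y₀)) ∂μ := by
        refine integral_congr_ae (Filter.Eventually.of_forall fun g => ?_)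
        have : (k * g)⁻¹ * k = g⁻¹ := by group
        simp only [this, hmul]

end Pool.Agent.H2.FXD
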